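import Pool.Agent.R689.Mon3

/-!
# Local v-numbers at maximal stable primes: a slope different from the initial degree

`I = (z ^ 2, x y z, x ^ 4 y ^ 3, x ^ 3 y ^ 4)` in `K[x, y, z]`, `p = (x, y, z)`: the initial degree
is `2`, `p` is associated to every power of `I`, and `3 k - 1 ≤ v_p (I ^ k) ≤ 3 k + 3`.
-/

set_option autoImplicit false

namespace Pool.Agent.Results.MP_ad771b_al.SlopeThree

open MvPolynomial Pool.Agent.R689.VNum Pointwise

/-- The stable associated primes of `J`: the primes associated to `J ^ k` for all large `k`. -/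
def AssInf {n : ℕ} {K : Type*} [Field K] (J : Ideal (MvPolynomial (Fin n) K)) :
    Set (Ideal (MvPolynomial (Fin n) K)) :=
  {p | ∃ k₀, ∀ k ≥ k₀, p ∈ Ass (J ^ k)}

/-- The maximal stable primes of `J`. -/
def MaxInf {n : ℕ} {K : Type*} [Field K] (J : Ideal (MvPolynomial (Fin n) K)) :
    Set (Ideal (MvPolynomial (Fin n) K)) :=
  {p | p ∈ AssInf J ∧ ∀ q ∈ AssInf J, p ≤ q → p = q}

/-- The initial degree of `J`: the least degree of a nonzero homogeneous element. -/
noncomputable def alpha {n : ℕ} {K : Type*} [Field K] (J : Ideal (MvPolynomial (Fin n) K)) : ℕ :=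
  sInf {d | ∃ f ∈ J, f ≠ 0 ∧ f.IsHomogeneous d}

/-- the exponents of the generators -/
def gens : Set (Fin 3 →₀ ℕ) := {ex 0 0 2, ex 1 1 1, ex 4 3 0, ex 3 4 0}

/-- the exponents of the products of `k` generators -/
def E (k : ℕ) : Set (Fin 3 →₀ ℕ) :=
  {u | ∃ i j l m, i + j + l + m = k ∧ u = ex (j + 4 * l + 3 * m) (j + 3 * l + 4 * m) (2 * i + j)}

lemma E_add (k : ℕ) : E k + gens = E (k + 1) := by
  ext u
  constructor
  · rintro ⟨_, ⟨i, j, l, m, h, rfl⟩, g, hg, rfl⟩
    rcases hg with rfl | rfl | rfl | rfl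
    · exact ⟨i + 1, j, l, m, by omega, by dsimp only; rw [ex_add]; congr 1; ring⟩
    · exact ⟨i, j + 1, l, m, by omega, by dsimp only; rw [ex_add]; congr 1 <;> ring⟩
    · exact ⟨i, j, l + 1, m, by omega, by dsimp only; rw [ex_add]; congr 1 <;> ring⟩
    · exact ⟨i, j, l, m + 1, by omega, by dsimp only; rw [ex_add]; congr 1 <;> ring⟩
  · rintro ⟨i, j, l, m, h, rfl⟩
    have h4 : i ≠ 0 ∨ j ≠ 0 ∨ l ≠ 0 ∨ m ≠ 0 := by omega
    rcases h4 with h4 | h4 | h4 | h4
    · obtain ⟨i, rfl⟩ := Nat.exists_eq_succ_of_ne_zero h4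
      refine ⟨_, ⟨i, j, l, m, by omega, rfl⟩, ex 0 0 2, by simp [gens], ?_⟩
      dsimp only; rw [ex_add]; congr 1; rw [Nat.succ_eq_add_one]; ring
    · obtain ⟨j, rfl⟩ := Nat.exists_eq_succ_of_ne_zero h4
      refine ⟨_, ⟨i, j, l, m, by omega, rfl⟩, ex 1 1 1, by simp [gens], ?_⟩
      dsimp only; rw [ex_add]; congr 1 <;> rw [Nat.succ_eq_add_one] <;> ring
    · obtain ⟨l, rfl⟩ := Nat.exists_eq_succ_of_ne_zero h4
      refine ⟨_, ⟨i, j, l, m, by omega, rfl⟩, ex 4 3 0, by simp [gens], ?_⟩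
      dsimp only; rw [ex_add]; congr 1 <;> rw [Nat.succ_eq_add_one] <;> ring
    · obtain ⟨m, rfl⟩ := Nat.exists_eq_succ_of_ne_zero h4
      refine ⟨_, ⟨i, j, l, m, by omega, rfl⟩, ex 3 4 0, by simp [gens], ?_⟩
      dsimp only; rw [ex_add]; congr 1 <;> rw [Nat.succ_eq_add_one] <;> ring

variable {K : Type*} [Field K]

lemma pow_eq (k : ℕ) : monIdeal K gens ^ k = monIdeal K (E k) := by
  induction k with
  | zero =>
    rw [pow_zero, ← monIdeal_zero (n := 3)]
    congr 1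
    ext u
    constructor
    · rintro rfl
      exact ⟨0, 0, 0, 0, rfl, by simp [ex]⟩
    · rintro ⟨i, j, l, m, h, rfl⟩
      have h1 : i = 0 ∧ j = 0 ∧ l = 0 ∧ m = 0 := by omega
      obtain ⟨rfl, rfl, rfl, rfl⟩ := h1
      simp [ex]
  | succ k ih => rw [pow_succ, ih, monIdeal_mul, E_add]

/-- `u` is divisible by a product of `k` generators -/
def P (k a b c : ℕ) : Prop :=
  ∃ i j l m, i + j + l + m = k ∧ j + 4 * l + 3 * m ≤ a ∧ j + 3 * l + 4 * m ≤ b ∧ 2 * i + j ≤ c

lemma exists_le_iff {k : ℕ} {u : Fin 3 →₀ ℕ} : (∃ a ∈ E k, a ≤ u) ↔ P k (u 0) (u 1) (u 2) := by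
  constructor
  · rintro ⟨_, ⟨i, j, l, m, h, rfl⟩, hle⟩
    rw [ex_le] at hle
    exact ⟨i, j, l, m, h, hle.1, hle.2.1, hle.2.2⟩
  · rintro ⟨i, j, l, m, h, h1, h2, h3⟩
    exact ⟨_, ⟨i, j, l, m, h, rfl⟩, ex_le.mpr ⟨h1, h2, h3⟩⟩

/-- the combinatorial estimate -/
lemma bound {k a b c : ℕ} (h : ¬ P k a b c) (hx : P k (a + 1) b c) (hy : P k a (b + 1) c)
    (hz : P k a b (c + 1)) : 3 * k ≤ a + b + c + 1 := by
  obtain ⟨i, j, l, m, h0, h1, h2, h3⟩ := hz
  by_contra hcon
  have hc : 2 * i + j = c + 1 := by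
    by_contra hc
    exact h ⟨i, j, l, m, h0, h1, h2, by omega⟩
  have hi : 1 ≤ i := by
    by_contra hi
    have : i = 0 := by omega
    subst this
    omega
  -- if there is room for `x y`, one factor `z ^ 2` can be replaced by `x y z`
  have hrs : j + 4 * l + 3 * m = a ∨ j + 3 * l + 4 * m = b := by
    by_contra hn
    push Not at hn
    exact h ⟨i - 1, j + 1, l, m, by omega, by omega, by omega, by omega⟩
  by_cases hl : l = 0
  · by_cases hm : m = 0
    · subst hl hm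
      rcases hrs with hr | hr
      · obtain ⟨i', j', l', m', g0, g1, g2, g3⟩ := hy
        omega
      · obtain ⟨i', j', l', m', g0, g1, g2, g3⟩ := hx
        omega
    · -- replace `z ^ 2 · x ^ 3 y ^ 4` by `(x y z) ^ 2 · x y ^ 2`
      by_cases hi1 : i = 1
      · subst hi1
        omega
      · exact h ⟨i - 2, j + 3, l, m - 1, by omega, by omega, by omega, by omega⟩
  · by_cases hi1 : i = 1
    · subst hi1
      omega
    · exact h ⟨i - 2, j + 3, l - 1, m, by omega, by omega, by omega, by omega⟩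

/-- the monomial `(x y z) ^ k x ^ 3 y ^ 3` is a socle monomial of `I ^ (k + 1)` -/
lemma socle (k : ℕ) : ColonEq (monIdeal K gens ^ (k + 1)) (monomial (ex (k + 3) (k + 3) k) 1)
    (idealOfVars (Fin 3) K) := by
  rw [pow_eq]
  apply colonEq_monomial
  · rw [exists_le_iff, ex0, ex1, ex2]
    rintro ⟨i, j, l, m, h0, h1, h2, h3⟩
    omega
  · intro i
    rw [exists_le_iff]
    fin_cases i
    · refine ⟨0, k, 1, 0, by omega, ?_, ?_, ?_⟩ <;> simp [ex] <;> omega
    · refine ⟨0, k, 0, 1, by omega, ?_, ?_, ?_⟩ <;> simp [ex] <;> omega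
    · refine ⟨0, k + 1, 0, 0, by omega, ?_, ?_, ?_⟩ <;> simp [ex]

lemma vnum_le (k : ℕ) : vnum (idealOfVars (Fin 3) K) (monIdeal K gens ^ (k + 1)) ≤ 3 * k + 6 := by
  apply Nat.sInf_le
  exact ⟨_, isHomogeneous_monomial 1 (by rw [ex_degree]; ring), socle k⟩

lemma le_vnum (k : ℕ) :
    3 * k + 2 ≤ vnum (idealOfVars (Fin 3) K) (monIdeal K gens ^ (k + 1)) := by
  apply le_csInf
  · exact ⟨_, _, isHomogeneous_monomial 1 rfl, socle k⟩
  · rintro d ⟨f, hf, hc⟩
    rw [pow_eq] at hc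
    obtain ⟨u, hu, h1, h2⟩ := exists_socle hf hc
    rw [degree3] at hu
    rw [exists_le_iff] at h1
    have s0 := exists_le_iff.mp (h2 0)
    have s1 := exists_le_iff.mp (h2 1)
    have s2 := exists_le_iff.mp (h2 2)
    simp only [Finsupp.add_apply, Finsupp.single_apply] at s0 s1 s2
    norm_num at s0 s1 s2
    have := bound h1 s0 s1 s2
    omega

lemma alpha_eq : alpha (monIdeal K gens) = 2 := by
  classical
  apply le_antisymm
  · apply Nat.sInf_le
    refine ⟨monomial (ex 0 0 2) 1, ?_, ?_, isHomogeneous_monomial 1 (by rw [ex_degree])⟩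
    · rw [monomial_mem]
      exact ⟨_, by simp [gens], le_rfl⟩
    · rw [Ne, monomial_eq_zero]
      exact one_ne_zero
  · apply le_csInf
    · refine ⟨2, monomial (ex 0 0 2) 1, ?_, ?_, isHomogeneous_monomial 1 (by rw [ex_degree])⟩
      · rw [monomial_mem]
        exact ⟨_, by simp [gens], le_rfl⟩
      · rw [Ne, monomial_eq_zero]
        exact one_ne_zero
    · rintro d ⟨f, hf, hf0, hfd⟩
      obtain ⟨u, hu⟩ := MvPolynomial.support_nonempty.mpr hf0
      obtain ⟨a, ha, hau⟩ := mem_monIdeal.mp hf u hu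
      have h5 := hfd (mem_support_iff.mp hu)
      have h6 : u.degree = d := by
        rw [← h5, Finsupp.degree_eq_weight_one]
        rfl
      have h7 := Finsupp.degree_mono hau
      rw [h6] at h7
      refine le_trans ?_ h7
      rcases ha with rfl | rfl | rfl | rfl <;> rw [ex_degree] <;> omega

open Filter in
/-- Over every infinite field `K` there are a homogeneous ideal `I` of `K[x, y, z]` and a maximal
stable prime `p` of `I` such that the initial degree of `I` is `2` and `v_p (I ^ k) / k` tends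
to `3`. -/
theorem result (K : Type*) [Field K] [Infinite K] :
    ∃ I p : Ideal (MvPolynomial (Fin 3) K), Homog I ∧ I ≠ ⊥ ∧ I ≠ ⊤ ∧ p ∈ MaxInf I ∧
      alpha I = 2 ∧ Tendsto (fun k : ℕ => (vnum p (I ^ k) : ℝ) / k) atTop (nhds 3) := by
  classical
  refine ⟨monIdeal K gens, idealOfVars (Fin 3) K, monIdeal_homogeneous _, ?_, ?_, ⟨?_, ?_⟩,
    alpha_eq, ?_⟩
  · intro h
    have h1 : (monomial (ex 0 0 2) 1 : MvPolynomial (Fin 3) K) ∈ monIdeal K gens := by
      rw [monomial_mem]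
      exact ⟨_, by simp [gens], le_rfl⟩
    rw [h, Ideal.mem_bot, monomial_eq_zero] at h1
    exact one_ne_zero h1
  · intro h
    have h1 := (socle (K := K) 0).vars.1
    rw [zero_add, pow_one, h] at h1
    exact h1 trivial
  · refine ⟨1, fun k hk => ⟨vars_isPrime, ?_⟩⟩
    obtain ⟨j, rfl⟩ : ∃ j, k = j + 1 := ⟨k - 1, by omega⟩
    exact ⟨_, socle j⟩
  · rintro q ⟨k₀, hq⟩ hpq
    exact vars_isMaximal.eq_of_le (hq k₀ le_rfl).1.ne_top hpq
  · have hlo : Tendsto (fun k : ℕ => (3 : ℝ) - 1 / k) atTop (nhds 3) := by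
      have := (tendsto_const_nhds (x := (3 : ℝ))).sub (tendsto_one_div_atTop_nhds_zero_nat (𝕜 := ℝ))
      simpa using this
    have hhi : Tendsto (fun k : ℕ => (3 : ℝ) + 3 * (1 / k)) atTop (nhds 3) := by
      have := (tendsto_const_nhds (x := (3 : ℝ))).add
        ((tendsto_one_div_atTop_nhds_zero_nat (𝕜 := ℝ)).const_mul 3)
      simpa using this
    refine tendsto_of_tendsto_of_tendsto_of_le_of_le' hlo hhi ?_ ?_
    · filter_upwards [eventually_ge_atTop 1] with k hk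
      obtain ⟨j, rfl⟩ : ∃ j, k = j + 1 := ⟨k - 1, by omega⟩
      have h1 : ((3 * j + 2 : ℕ) : ℝ) ≤ (vnum (idealOfVars (Fin 3) K) (monIdeal K gens ^ (j + 1)) : ℝ) :=
        Nat.cast_le.mpr (le_vnum j)
      have h2 : (0 : ℝ) < ((j + 1 : ℕ) : ℝ) := by positivity
      rw [le_div_iff₀ h2, sub_mul, one_div, inv_mul_cancel₀ h2.ne']
      push_cast at h1 ⊢
      linarith
    · filter_upwards [eventually_ge_atTop 1] with k hk
      obtain ⟨j, rfl⟩ : ∃ j, k = j + 1 := ⟨k - 1, by omega⟩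
      have h1 : (vnum (idealOfVars (Fin 3) K) (monIdeal K gens ^ (j + 1)) : ℝ) ≤
          ((3 * j + 6 : ℕ) : ℝ) := Nat.cast_le.mpr (vnum_le j)
      have h2 : (0 : ℝ) < ((j + 1 : ℕ) : ℝ) := by positivity
      rw [div_le_iff₀ h2, add_mul, one_div, mul_assoc, inv_mul_cancel₀ h2.ne']
      push_cast at h1 ⊢
      linarith

end Pool.Agent.Results.MP_ad771b_al.SlopeThree
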